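import Pool.Graph.R_seed8.Helper520.CD.Dim

set_option autoImplicit false

namespace Pool.Agent.KS6_77.CDim

open Set TopologicalSpace Filter Topology
open Pool.Agent.Helper520.CD

/-- countable closed sum theorem for the splitting form of dimension zero -/
theorem sum_split {Y : Type*} [TopologicalSpace Y] [NormalSpace Y] (F : ℕ → Set Y)
    (hcov : ∀ y, ∃ n, y ∈ F n)
    (hs : ∀ n, ∀ P R : Set Y, IsClosed P → IsClosed R → Disjoint P R →
      ∃ E1 E2 : Set Y, IsClosed E1 ∧ IsClosed E2 ∧ F n ⊆ E1 ∪ E2 ∧ Disjoint E1 E2 ∧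
        E1 ⊆ F n ∧ E2 ⊆ F n ∧ F n ∩ P ⊆ E1 ∧ F n ∩ R ⊆ E2)
    (P R : Set Y) (hP : IsClosed P) (hR : IsClosed R) (hPR : Disjoint P R) :
    ∃ V : Set Y, IsOpen V ∧ IsClosed V ∧ P ⊆ V ∧ Disjoint V R := by
  classical
  have sep : ∀ P R : Set Y, IsClosed P → IsClosed R → Disjoint P R →
      ∃ V W : Set Y, IsOpen V ∧ IsOpen W ∧ P ⊆ V ∧ R ⊆ W ∧
        Disjoint (closure V) (closure W) := by
    intro P R hP hR hPR
    obtain ⟨V, hV, hPV, hVR⟩ := normal_exists_closure_subset hP hR.isOpen_compl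
      (disjoint_left.1 hPR)
    obtain ⟨W, hW, hRW, hWV⟩ := normal_exists_closure_subset hR
      (isClosed_closure (s := V)).isOpen_compl (fun x hx h => hVR h hx)
    exact ⟨V, W, hV, hW, hPV, hRW, disjoint_left.2 fun x h1 h2 => hWV h2 h1⟩
  let T := {p : Set Y × Set Y // IsOpen p.1 ∧ IsOpen p.2 ∧
    Disjoint (closure p.1) (closure p.2)}
  have step : ∀ (n : ℕ) (p : T), ∃ q : T, p.1.1 ⊆ q.1.1 ∧ p.1.2 ⊆ q.1.2 ∧
      F n ⊆ q.1.1 ∪ q.1.2 := by
    intro n p
    obtain ⟨E1, E2, h1, h2, h3, h4, h5, h6, h7, h8⟩ := hs n (closure p.1.1) (closure p.1.2)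
      isClosed_closure isClosed_closure p.2.2.2
    obtain ⟨V, W, hV, hW, hPV, hRW, hd⟩ := sep (closure p.1.1 ∪ E1) (closure p.1.2 ∪ E2)
      (isClosed_closure.union h1) (isClosed_closure.union h2) (by
        rw [disjoint_left]
        rintro x (hx | hx) (hy | hy)
        · exact disjoint_left.1 p.2.2.2 hx hy
        · exact disjoint_left.1 h4 (h7 ⟨h6 hy, hx⟩) hy
        · exact disjoint_left.1 h4 hx (h8 ⟨h5 hx, hy⟩)
        · exact disjoint_left.1 h4 hx hy)
    refine ⟨⟨(V, W), hV, hW, hd⟩, ?_, ?_, ?_⟩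
    · exact (subset_closure.trans subset_union_left).trans hPV
    · exact (subset_closure.trans subset_union_left).trans hRW
    · intro x hx
      rcases h3 hx with h | h
      · exact Or.inl (hPV (Or.inr h))
      · exact Or.inr (hRW (Or.inr h))
  choose nx hn1 hn2 hn3 using step
  obtain ⟨V0, W0, hV0, hW0, hP0, hR0, hd0⟩ := sep P R hP hR hPR
  let s : ℕ → T := fun n => Nat.rec ⟨(V0, W0), hV0, hW0, hd0⟩ (fun n p => nx n p) n
  have hs0 : s 0 = ⟨(V0, W0), hV0, hW0, hd0⟩ := rfl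
  have hss : ∀ n, s (n + 1) = nx n (s n) := fun n => rfl
  have hm1 : Monotone (fun n => (s n).1.1) := monotone_nat_of_le_succ fun n => by
    show (s n).1.1 ⊆ (s (n+1)).1.1
    rw [hss]
    exact hn1 n (s n)
  have hm2 : Monotone (fun n => (s n).1.2) := monotone_nat_of_le_succ fun n => by
    show (s n).1.2 ⊆ (s (n+1)).1.2
    rw [hss]
    exact hn2 n (s n)
  have hdis : Disjoint (⋃ n, (s n).1.1) (⋃ n, (s n).1.2) := by
    rw [disjoint_left]
    intro x hx hy
    obtain ⟨n, hn⟩ := mem_iUnion.1 hx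
    obtain ⟨m, hm⟩ := mem_iUnion.1 hy
    have a1 : x ∈ (s (max n m)).1.1 := hm1 (le_max_left n m) hn
    have a2 : x ∈ (s (max n m)).1.2 := hm2 (le_max_right n m) hm
    exact disjoint_left.1 (s (max n m)).2.2.2 (subset_closure a1) (subset_closure a2)
  have hco : (⋃ n, (s n).1.1) = (⋃ n, (s n).1.2)ᶜ := by
    apply Subset.antisymm
    · exact fun x hx h => disjoint_left.1 hdis hx h
    · intro x hx
      obtain ⟨n, hn⟩ := hcov x
      rcases hn3 n (s n) hn with h | h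
      · exact mem_iUnion.2 ⟨n + 1, h⟩
      · exact absurd (mem_iUnion.2 ⟨n + 1, h⟩) hx
  refine ⟨⋃ n, (s n).1.1, isOpen_iUnion fun n => (s n).2.1, ?_, ?_, ?_⟩
  · rw [hco]
    exact (isOpen_iUnion fun n => (s n).2.2.1).isClosed_compl
  · exact hP0.trans (subset_iUnion (fun n => (s n).1.1) 0)
  · refine disjoint_left.2 fun x hx hy => disjoint_left.1 hdis hx ?_
    exact mem_iUnion.2 ⟨0, hR0 hy⟩

/-- countable closed sum theorem in dimension zero, for subsets -/
theorem PP_one_iUnion {X : Type*} [TopologicalSpace X] [MetrizableSpace X] (F : ℕ → Set X)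
    (hF : ∀ n, IsClosed (F n)) (h : ∀ n, PP 1 (F n)) : PP 1 (⋃ n, F n) := by
  intro C U hC hU hCU
  set A : Set X := ⋃ n, F n with hA
  obtain ⟨V, hV1, hV2, hV3, hV4⟩ := sum_split (Y := A) (fun n => Subtype.val ⁻¹' F n)
    (fun y => by
      obtain ⟨n, hn⟩ := mem_iUnion.1 y.2
      exact ⟨n, hn⟩) (by
      intro n P R hP hR hPR
      obtain ⟨P', hP', rfl⟩ := isClosed_induced_iff.1 hP
      obtain ⟨R', hR', rfl⟩ := isClosed_induced_iff.1 hR
      obtain ⟨V, h1, h2, h3, h4⟩ := h n P' R'ᶜ hP' hR'.isOpen_compl (by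
        rintro x ⟨hx1, hx2⟩ hx3
        have hxA : x ∈ A := mem_iUnion.2 ⟨n, hx2⟩
        exact disjoint_left.1 hPR (show (⟨x, hxA⟩ : A) ∈ Subtype.val ⁻¹' P' from hx1) hx3)
      have h4' : (closure (V ∩ F n) ∩ F n) \ V = ∅ := h4
      have hcl : ∀ x, x ∈ closure (V ∩ F n) → x ∈ V ∩ F n := by
        intro x hx
        have hxF : x ∈ F n := (hF n).closure_subset_iff.2 inter_subset_right hx
        by_contra hc
        have : x ∈ (closure (V ∩ F n) ∩ F n) \ V := ⟨⟨hx, hxF⟩, fun hv => hc ⟨hv, hxF⟩⟩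
        rw [h4'] at this
        exact this
      have hVF : IsClosed (V ∩ F n) := isClosed_of_closure_subset hcl
      refine ⟨Subtype.val ⁻¹' (V ∩ F n), Subtype.val ⁻¹' (F n \ V),
        hVF.preimage continuous_subtype_val,
        ((hF n).inter h1.isClosed_compl).preimage continuous_subtype_val, ?_, ?_, ?_, ?_, ?_, ?_⟩
      · intro x hx
        by_cases hv : x.1 ∈ V
        · exact Or.inl ⟨hv, hx⟩
        · exact Or.inr ⟨hx, hv⟩
      · exact disjoint_left.2 fun x hx hy => hy.2 hx.1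
      · exact fun x hx => hx.2
      · exact fun x hx => hx.1
      · exact fun x hx => ⟨h2 ⟨hx.2, hx.1⟩, hx.1⟩
      · refine fun x hx => ⟨hx.1, fun hv => ?_⟩
        exact h3 ⟨subset_closure ⟨hv, hx.1⟩, hx.1⟩ hx.2)
    (Subtype.val ⁻¹' C) (Subtype.val ⁻¹' Uᶜ) (hC.preimage continuous_subtype_val)
    (hU.isClosed_compl.preimage continuous_subtype_val)
    (disjoint_left.2 fun x h1 h2 => h2 (hCU ⟨h1, x.2⟩))
  obtain ⟨O, hO, rfl⟩ := isOpen_induced_iff.1 hV1
  obtain ⟨K, hK, hKO⟩ := isClosed_induced_iff.1 hV2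
  have hOK : ∀ x ∈ A, x ∈ K ↔ x ∈ O := fun x hx => by
    have := Set.ext_iff.1 hKO ⟨x, hx⟩
    exact this
  have hcl : ∀ x ∈ A, x ∈ closure (O ∩ A) → x ∈ O := fun x hx h => by
    rw [← hOK x hx]
    have : O ∩ A ⊆ K := fun y hy => (hOK y hy.2).2 hy.1
    exact (hK.closure_subset_iff.2 this) h
  refine ⟨O, hO, ?_, ?_, ?_⟩
  · exact fun x hx => hV3 (show (⟨x, hx.2⟩ : A) ∈ Subtype.val ⁻¹' C from hx.1)
  · intro x hx
    by_contra hc
    exact disjoint_left.1 hV4 (show (⟨x, hx.2⟩ : A) ∈ Subtype.val ⁻¹' O from hcl x hx.2 hx.1) hc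
  · show _ = ∅
    rw [eq_empty_iff_forall_notMem]
    exact fun x hx => hx.2 (hcl x hx.1.2 hx.1.1)

/-- finite-codimensional closed faces are big -/
theorem not_small_face (D : Finset ℕ) (c : Q) (hc : ∀ i ∈ D, 0 < (c i : ℝ) ∧ (c i : ℝ) < 1)
    (K : Set Q) (hK : {x : Q | ∀ i ∈ D, x i = c i} ⊆ K) : ¬ Helper520.CD.Small K := by
  classical
  intro h
  have h1 : Ess D (univ : Set Q) := by
    refine ⟨_, ⟨D, fun _ => ∅, subset_rfl, ?_, rfl⟩, subset_univ _⟩
    intro l hl
    simp at hl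
  obtain ⟨T, ⟨S, O, hDS, hO, rfl⟩, h3⟩ := h D univ isOpen_univ h1
  let O' : ℕ → Set Q := fun l => if l ∈ D then {x : Q | x l < c l} else O l
  have hlt : ∀ l ∈ D, IsOpen {x : Q | x l < c l} := fun l _ =>
    isOpen_lt (continuous_apply l) continuous_const
  have hcl : ∀ l, closure {x : Q | x l < c l} ⊆ {x : Q | x l ≤ c l} := fun l =>
    closure_minimal (fun x (hx : x l < c l) => (le_of_lt hx : x l ≤ c l)) (isClosed_le (continuous_apply l) continuous_const)
  obtain ⟨x, hx1, hx2⟩ := partitions_meet S O' (by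
      intro l hl
      by_cases hD : l ∈ D
      · simp only [O', if_pos hD]
        exact hlt l hD
      · simp only [O', if_neg hD]
        exact (hO l (Finset.mem_sdiff.2 ⟨hl, hD⟩)).1) (by
      intro l hl x hx
      by_cases hD : l ∈ D
      · simp only [O', if_pos hD]
        show x l < c l
        rw [hx]
        exact Subtype.coe_lt_coe.1 (hc l hD).1
      · simp only [O', if_neg hD]
        exact (hO l (Finset.mem_sdiff.2 ⟨hl, hD⟩)).2.1 x hx) (by
      intro l hl x hx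
      by_cases hD : l ∈ D
      · simp only [O', if_pos hD] at hx
        intro he
        have h5 : x l ≤ c l := hcl l hx
        rw [he] at h5
        exact absurd (Subtype.coe_lt_coe.1 (show ((c l : ℝ)) < ((1 : unitInterval) : ℝ) from
          (hc l hD).2)) (not_lt.2 h5)
      · simp only [O', if_neg hD] at hx
        exact (hO l (Finset.mem_sdiff.2 ⟨hl, hD⟩)).2.2.1 x hx)
  have hxT : x ∈ {x : Q | (∀ i, i ∉ S → x i = 0) ∧ ∀ l ∈ S \ D, x ∈ frontier (O l)} := by
    refine ⟨hx1, fun l hl => ?_⟩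
    have := hx2 l (Finset.mem_sdiff.1 hl).1
    simp only [O', if_neg (Finset.mem_sdiff.1 hl).2] at this
    exact this
  refine (h3 hxT).2 (hK fun l hl => ?_)
  have h6 := hx2 l (hDS hl)
  simp only [O', if_pos hl] at h6
  have h7 : x l ≤ c l := hcl l h6.1
  have h8 : ¬ x l < c l := by
    have := h6.2
    rw [(hlt l hl).interior_eq] at this
    exact this
  exact le_antisymm h7 (not_lt.1 h8)

/-- every nonempty open subset of the Hilbert cube contains a big closed set -/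
theorem open_big {O : Set Q} (hO : IsOpen O) (hne : O.Nonempty) :
    ∃ K : Set Q, IsClosed K ∧ ¬ Helper520.CD.Small K ∧ K ⊆ O := by
  classical
  obtain ⟨x, hx⟩ := hne
  obtain ⟨D, u, hu, hs⟩ := isOpen_pi_iff.1 hO x hx
  have key : ∀ i ∈ D, ∃ c : unitInterval, c ∈ u i ∧ 0 < (c : ℝ) ∧ (c : ℝ) < 1 := by
    intro i hi
    have hd : Dense (Ioo (0 : unitInterval) 1) := by
      have : closure (Ioo (0 : unitInterval) 1) = Icc 0 1 :=
        closure_Ioo (by exact zero_ne_one)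
      rw [dense_iff_closure_eq, this]
      ext y
      simp [unitInterval.le_one']
    obtain ⟨c, hc1, hc2⟩ := hd.inter_open_nonempty (u i) (hu i hi).1 ⟨x i, (hu i hi).2⟩
    exact ⟨c, hc1, Subtype.coe_lt_coe.2 hc2.1, Subtype.coe_lt_coe.2 hc2.2⟩
  choose! c hc using key
  refine ⟨{y : Q | ∀ i ∈ D, y i = c i}, ?_, ?_, ?_⟩
  · have : {y : Q | ∀ i ∈ D, y i = c i} = ⋂ i ∈ D, {y : Q | y i = c i} := by
      ext y; simp
    rw [this]
    exact isClosed_biInter fun i _ => isClosed_eq (continuous_apply i) continuous_const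
  · exact not_small_face D c (fun i hi => (hc i hi).2) _ subset_rfl
  · refine fun y hy => hs fun i hi => ?_
    rw [hy i hi]
    exact (hc i hi).1

/-- the space: countable-dimensional, dense in the Hilbert cube, nowhere finite-dimensional, every
`F_σ` subset is zero-dimensional or infinite-dimensional -/
theorem main : ∃ X : Set Q, Dense X ∧
    (∃ Z : ℕ → Set X, (∀ i, PP 1 (Z i)) ∧ (⋃ i, Z i) = univ) ∧
    (∀ U : Set X, IsOpen U → U.Nonempty → ∀ k, ¬ PP k U) ∧
    (∀ F : ℕ → Set X, (∀ i, IsClosed (F i)) → PP 1 (⋃ i, F i) ∨ ∀ k, ¬ PP k (⋃ i, F i)) := by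
  obtain ⟨X, hX1, hX2, hX3⟩ := construction
  refine ⟨X, ?_, ?_, ?_, ?_⟩
  · rw [dense_iff_inter_open]
    intro O hO hne
    obtain ⟨K, hK, hb, hKO⟩ := open_big hO hne
    obtain ⟨x, hx1, hx2⟩ := hX2 K hK hb
    exact ⟨x, hKO hx2, hx1⟩
  · obtain ⟨g, hg⟩ := exists_surjective_nat (Finset (ℕ × ℚ))
    refine ⟨fun n => Subtype.val ⁻¹' (Es (g n)), fun n => ?_, ?_⟩
    · exact PP_one_of_ZD (ZD_preimage ((Es_ZD (g n)).mono inter_subset_right))
    · rw [eq_univ_iff_forall]
      intro x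
      obtain ⟨s, hs⟩ := mem_iUnion.1 (hX1 x.2)
      obtain ⟨n, rfl⟩ := hg s
      exact mem_iUnion.2 ⟨n, hs⟩
  · intro U hU hne k h
    obtain ⟨O, hO, rfl⟩ := isOpen_induced_iff.1 hU
    obtain ⟨x, hx⟩ := hne
    obtain ⟨K, hK, hb, hKO⟩ := open_big hO ⟨x.1, hx⟩
    refine not_PP_of_big hX2 k K hK hb ?_
    refine PP_closed k _ _ (Subtype.val ⁻¹' K) (hK.preimage continuous_subtype_val) ?_ h
    ext y
    exact ⟨fun hy => ⟨hKO hy, hy⟩, fun hy => hy.2⟩
  · intro F hF
    by_cases hall : ∀ i, PP 1 (F i)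
    · exact Or.inl (PP_one_iUnion F hF hall)
    · right
      push Not at hall
      obtain ⟨i, hi⟩ := hall
      intro k hk
      obtain ⟨K, hK, hKF⟩ := isClosed_induced_iff.1 (hF i)
      by_cases hs : Helper520.CD.Small K
      · apply hi
        rw [← hKF]
        apply PP_one_of_ZD
        apply ZD_preimage
        apply ZD_of_coord
        exact hX3 K hK hs
      · refine not_PP_of_big hX2 k K hK hs ?_
        rw [hKF]
        refine PP_closed k _ _ (F i) (hF i) ?_ hk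
        ext y
        exact ⟨fun hy => ⟨mem_iUnion.2 ⟨i, hy⟩, hy⟩, fun hy => hy.2⟩

end Pool.Agent.KS6_77.CDim
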